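import Mathlib

/-! Project TW, piece T3 (helper23): a finite ring of matrices with structure constants in a
principal ideal domain can be conjugated into matrices over that domain. -/

set_option autoImplicit false

namespace Pool.Agent.Helper23.TW

open Module

theorem integral_conj {L : Type*} [Field L] (B : Subring L) [IsPrincipalIdealRing B]
    (hB : ∀ x : L, ∃ b c : L, b ∈ B ∧ c ∈ B ∧ c ≠ 0 ∧ x = b / c) {N m : ℕ}
    (X : Fin N → Matrix (Fin m) (Fin m) L) (h1 : ∃ s, X s = 1)
    (β : Fin N → Fin N → Fin N → L) (hβ : ∀ s t u, β s t u ∈ B)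
    (hX : ∀ s t, X s * X t = ∑ u, β s t u • X u) :
    ∃ v : (Matrix (Fin m) (Fin m) L)ˣ, ∀ s i j,
      ((v : Matrix (Fin m) (Fin m) L) * X s * ((v⁻¹ : (Matrix (Fin m) (Fin m) L)ˣ) :
        Matrix (Fin m) (Fin m) L)) i j ∈ B := by
  classical
  have : IsFractionRing B L := by
    refine (isLocalization_iff _ _).2 ⟨?_, ?_, ?_⟩
    · intro y
      refine isUnit_iff_ne_zero.2 fun h => ?_
      have : (y : B) = 0 := Subtype.ext h
      exact nonZeroDivisors.ne_zero y.2 this
    · intro z
      obtain ⟨b, c, hb, hc, hc0, rfl⟩ := hB z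
      refine ⟨(⟨b, hb⟩, ⟨⟨c, hc⟩, mem_nonZeroDivisors_of_ne_zero fun h => hc0
        (congrArg Subtype.val h)⟩), ?_⟩
      change b / c * c = b
      field_simp
    · intro x y hxy
      exact ⟨1, by simpa using Subtype.ext hxy⟩
  -- the lattice
  set P : Submodule B (Fin m → L) :=
    Submodule.span B (Set.range fun q : Fin N × Fin m => (X q.1).mulVec (Pi.single q.2 1))
    with hP
  have : Module.Finite B P := Module.Finite.span_of_finite B (Set.finite_range _)
  have : IsTorsionFree B L := inferInstance
  have : IsTorsionFree B (Fin m → L) := inferInstance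
  have : IsTorsionFree B P := inferInstance
  have : Module.Free B P := inferInstance
  set b := Module.Free.chooseBasis B P with hb
  -- stability
  have hstab : ∀ s, ∀ p ∈ P, (X s).mulVec p ∈ P := by
    intro s p hp
    induction hp using Submodule.span_induction with
    | mem x hx =>
      obtain ⟨⟨t, i⟩, rfl⟩ := hx
      simp only [Matrix.mulVec_mulVec, hX]
      rw [Matrix.sum_mulVec]
      refine Submodule.sum_mem _ fun u _ => ?_
      rw [Matrix.smul_mulVec]
      exact Submodule.smul_mem P (⟨β s t u, hβ s t u⟩ : B) (Submodule.subset_span ⟨(u, i), rfl⟩)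
    | zero => simp
    | add x y _ _ hx hy => rw [Matrix.mulVec_add]; exact P.add_mem hx hy
    | smul a x _ hx =>
      have : (X s).mulVec (a • x) = a • (X s).mulVec x := by
        change (X s).mulVec ((a : L) • x) = (a : L) • (X s).mulVec x
        rw [Matrix.mulVec_smul]
      rw [this]
      exact P.smul_mem a hx
  have hone : ∀ i, (Pi.single i 1 : Fin m → L) ∈ P := by
    intro i
    obtain ⟨s, hs⟩ := h1
    refine Submodule.subset_span ⟨(s, i), ?_⟩
    simp only [hs, Matrix.one_mulVec]
  -- the basis over L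
  have hli : LinearIndependent L (fun k => ((b k : P) : Fin m → L)) := by
    rw [← LinearIndependent.iff_fractionRing B L]
    exact b.linearIndependent.map' P.subtype (Submodule.ker_subtype P)
  have hsp : ⊤ ≤ Submodule.span L (Set.range fun k => ((b k : P) : Fin m → L)) := by
    have key : ∀ p ∈ P, p ∈ Submodule.span L (Set.range fun k => ((b k : P) : Fin m → L)) := by
      intro p hp
      have h := b.sum_repr ⟨p, hp⟩
      have h2 : p = ∑ k, (b.repr ⟨p, hp⟩ k : L) • ((b k : P) : Fin m → L) := by
        conv_lhs => rw [show p = ((⟨p, hp⟩ : P) : Fin m → L) from rfl, ← h]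
        rw [Submodule.coe_sum]
        rfl
      rw [h2]
      exact Submodule.sum_mem _ fun k _ => Submodule.smul_mem _ _ (Submodule.subset_span ⟨k, rfl⟩)
    intro x _
    have : x = ∑ i, x i • (Pi.single i 1 : Fin m → L) := by
      funext j
      simp [Finset.sum_apply, Pi.single_apply]
    rw [this]
    exact Submodule.sum_mem _ fun i _ => Submodule.smul_mem _ _ (key _ (hone i))
  let c := Basis.mk hli hsp
  have hcard : Fintype.card (Module.Free.ChooseBasisIndex B P) = m := by
    have := Module.finrank_eq_card_basis c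
    simpa using this.symm
  let e : Module.Free.ChooseBasisIndex B P ≃ Fin m := Fintype.equivFinOfCardEq hcard
  let c' := c.reindex e
  have hc' : ∀ k, c' k = ((b (e.symm k) : P) : Fin m → L) := by
    intro k
    simp [c', c]
  -- the matrix
  let M : Matrix (Fin m) (Fin m) L := Matrix.of fun i k => c' k i
  have hM : IsUnit M := by
    have h : M = (Pi.basisFun L (Fin m)).toMatrix c' := by
      ext i k
      simp [M, Basis.toMatrix_apply]
    rw [h]
    have := (Pi.basisFun L (Fin m)).invertibleToMatrix c'
    exact isUnit_of_invertible _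
  obtain ⟨w, hw⟩ := hM
  refine ⟨w⁻¹, fun s => ?_⟩
  -- coordinates
  have hco : ∀ s k, ∃ C : Fin m → L, (∀ j, C j ∈ B) ∧
      (X s).mulVec (c' k) = ∑ j, C j • c' j := by
    intro s k
    have h1 : (X s).mulVec (c' k) ∈ P := hstab s _ (by rw [hc']; exact (b (e.symm k)).2)
    refine ⟨fun j => (b.repr ⟨_, h1⟩ (e.symm j) : L), fun j => (b.repr ⟨_, h1⟩ (e.symm j)).2, ?_⟩
    have h := b.sum_repr ⟨_, h1⟩
    have h2 : (X s).mulVec (c' k) =
        ∑ k', (b.repr ⟨_, h1⟩ k' : L) • ((b k' : P) : Fin m → L) := by
      conv_lhs => rw [show (X s).mulVec (c' k) = ((⟨_, h1⟩ : P) : Fin m → L) from rfl, ← h]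
      rw [Submodule.coe_sum]
      rfl
    refine h2.trans ?_
    rw [← e.symm.sum_comp]
    exact Finset.sum_congr rfl fun j _ => congrArg (_ • ·) (hc' j).symm
  choose C hCB hC using hco
  have hXM : X s * M = M * Matrix.of fun j k => C s k j := by
    ext i k
    have h := congrFun (hC s k) i
    simp only [Matrix.mulVec, dotProduct, Finset.sum_apply, Pi.smul_apply, smul_eq_mul] at h
    simp only [Matrix.mul_apply, M, Matrix.of_apply]
    rw [h]
    exact Finset.sum_congr rfl fun j _ => mul_comm _ _
  intro i j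
  have hfin : ((w⁻¹ : (Matrix (Fin m) (Fin m) L)ˣ) : Matrix (Fin m) (Fin m) L) * X s *
      (((w⁻¹)⁻¹ : (Matrix (Fin m) (Fin m) L)ˣ) : Matrix (Fin m) (Fin m) L) =
      Matrix.of fun j k => C s k j := by
    rw [inv_inv, Matrix.mul_assoc, hw, hXM, ← hw, ← Matrix.mul_assoc, Units.inv_mul, Matrix.one_mul]
  rw [hfin]
  exact hCB s j i

end Pool.Agent.Helper23.TW
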